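import Pool.Agent.J4H47.MT.Types

/-!
# The comparison maps and the pairing of classes of the second theory with complex classes
-/

set_option autoImplicit false
set_option linter.unusedSectionVars false

open CategoryTheory AlgebraicGeometry
open scoped TensorProduct

universe u v

namespace Pool.Agent.J4H47.MT

open Module
open Pool.Agent.H914 VarClass Obj WeilCohomology
open Pool.Agent.Y133.Half (ClassPred)

variable {k : Type u} [Field k] {𝒱 : VarClass k} {ops : CycleOps 𝒱}
  {W₀ W : WeilCohomology.{u, v} ops} [Algebra W₀.K ℝ] [Algebra W₀.K W.K] {X Y Z : 𝒱.Obj}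

namespace Comparison

variable (C : Comparison W₀ W)

lemma map_c (f : X ⟶ Y) (a : W₀.H Y) : C.c X (W₀.map f a) = W.map f (C.c Y a) := C.map f a

lemma c_zero : C.c X 0 = 0 := by
  have h := (C.isComparison X).add 0 0
  rw [add_zero] at h
  exact left_eq_add.1 h

/-- Two linear forms which agree on the image of the comparison map are equal. -/
lemma form_ext {P : Type*} [AddCommGroup P] [Module W.K P] {f g : W.H X →ₗ[W.K] P}
    (h : ∀ a, f (C.c X a) = g (C.c X a)) : f = g := by
  apply LinearMap.ext_on_range (v := C.c X) (C.isComparison X).span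
  exact h

lemma tr_ext' {a b : W.H X} (h : ∀ w, W.tr X (a * C.c X w) = W.tr X (b * C.c X w)) : a = b := by
  apply W.tr_ext
  intro c
  have h1 : (W.tr X) ∘ₗ LinearMap.mulLeft W.K a = (W.tr X) ∘ₗ LinearMap.mulLeft W.K b :=
    C.form_ext fun w => h w
  exact LinearMap.congr_fun h1 c

lemma c_push (f : X ⟶ Y) (a : W₀.H X) : C.c Y (W₀.push f a) = W.push f (C.c X a) := by
  apply C.tr_ext'
  intro w
  rw [← (C.isComparison Y).mul, (C.isComparison Y).tr, W₀.tr_push, W.tr_push, ← C.map_c,
    ← (C.isComparison X).mul, (C.isComparison X).tr]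

/-- The form `w ↦ tr (c · w)` on the cohomology of the first theory. -/
noncomputable def tau (c : W.H X) : W₀.H X →ₗ[W₀.K] W.K where
  toFun w := W.tr X (c * C.c X w)
  map_add' a b := by rw [(C.isComparison X).add, mul_add, map_add]
  map_smul' r a := by
    rw [(C.isComparison X).smul, mul_smul_comm, map_smul, RingHom.id_apply, smul_eq_mul,
      Algebra.smul_def]

lemma tau_apply (c : W.H X) (w : W₀.H X) : C.tau c w = W.tr X (c * C.c X w) := rfl

/-- The pairing of a class of the second theory and of a complex class. -/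
noncomputable def pair (c : W.H X) : (ℂ ⊗[W₀.K] W₀.H X) →ₗ[ℂ] (ℂ ⊗[W₀.K] W.K) :=
  (C.tau c).baseChange ℂ

lemma pair_tmul (c : W.H X) (z : ℂ) (w : W₀.H X) :
    C.pair c (z ⊗ₜ w) = z ⊗ₜ W.tr X (c * C.c X w) := by
  rw [pair, LinearMap.baseChange_tmul, tau_apply]

lemma pair_zero (y : ℂ ⊗[W₀.K] W₀.H X) : C.pair (0 : W.H X) y = 0 := by
  induction y using TensorProduct.induction_on with
  | zero => rw [map_zero]
  | tmul z w => rw [pair_tmul, zero_mul, map_zero, TensorProduct.tmul_zero]
  | add x y hx hy => rw [map_add, hx, hy, add_zero]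

lemma pair_add (a b : W.H X) (y : ℂ ⊗[W₀.K] W₀.H X) :
    C.pair (a + b) y = C.pair a y + C.pair b y := by
  induction y using TensorProduct.induction_on with
  | zero => rw [map_zero, map_zero, map_zero, add_zero]
  | tmul z w => rw [pair_tmul, pair_tmul, pair_tmul, add_mul, map_add, TensorProduct.tmul_add]
  | add x y hx hy => rw [map_add, map_add, map_add, hx, hy]; abel

lemma pair_smul (r : W.K) (a : W.H X) (y : ℂ ⊗[W₀.K] W₀.H X) :
    C.pair (r • a) y = ((1 : ℂ) ⊗ₜ[W₀.K] r) * C.pair a y := by
  induction y using TensorProduct.induction_on with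
  | zero => rw [map_zero, map_zero, mul_zero]
  | tmul z w => rw [pair_tmul, pair_tmul, smul_mul_assoc, map_smul,
      Algebra.TensorProduct.tmul_mul_tmul, one_mul, smul_eq_mul]
  | add x y hx hy => rw [map_add, map_add, hx, hy, mul_add]

lemma pair_push (f : X ⟶ Y) (a : W.H X) (y : ℂ ⊗[W₀.K] W₀.H Y) :
    C.pair (W.push f a) y = C.pair a (mapC W₀ f y) := by
  induction y using TensorProduct.induction_on with
  | zero => rw [map_zero, map_zero, map_zero]
  | tmul z w => rw [pair_tmul, mapC, LinearMap.baseChange_tmul, pair_tmul, W.tr_push,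
      AlgHom.toLinearMap_apply, C.map_c]
  | add x y hx hy => rw [map_add, map_add (mapC W₀ f), map_add, hx, hy]

lemma pair_map (f : X ⟶ Y) {j : ℕ} {a : W.H Y} (ha : a ∈ W.gr Y (2 * j))
    (y : ℂ ⊗[W₀.K] W₀.H X) : C.pair (W.map f a) y = C.pair a (pushC W₀ f y) := by
  induction y using TensorProduct.induction_on with
  | zero => rw [map_zero, map_zero, map_zero]
  | tmul z w =>
    rw [pair_tmul, pushC, LinearMap.baseChange_tmul, pair_tmul, W.even_comm (W.map_mem f ha),
      ← W.tr_push, ← C.c_push, ← W.even_comm ha]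
  | add x y hx hy => rw [map_add, map_add (pushC W₀ f), map_add, hx, hy]

/-- The pairing with the product with a rational class. -/
lemma pair_mul {j : ℕ} {φ : W₀.H X} (hφ : φ ∈ W₀.gr X (2 * j)) (a : W.H X)
    (y : ℂ ⊗[W₀.K] W₀.H X) : C.pair (C.c X φ * a) y = C.pair a ((1 ⊗ₜ φ) * y) := by
  induction y using TensorProduct.induction_on with
  | zero => rw [map_zero, mul_zero, map_zero]
  | tmul z w =>
    rw [pair_tmul, Algebra.TensorProduct.tmul_mul_tmul, one_mul, pair_tmul,
      (C.isComparison X).mul, ← mul_assoc, W.even_comm ((C.isComparison X).gr _ _ hφ)]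
  | add x y hx hy => rw [map_add, mul_add, map_add, hx, hy]

/-- The pairing of an exterior product. -/
lemma pair_prod {j : ℕ} (a : W.H X) {b : W.H Y} (hb : b ∈ W.gr Y (2 * j))
    (x : ℂ ⊗[W₀.K] W₀.H X) (y : ℂ ⊗[W₀.K] W₀.H Y) :
    C.pair (W.map (fst X Y) a * W.map (snd X Y) b)
      (mapC W₀ (fst X Y) x * mapC W₀ (snd X Y) y) = C.pair a x * C.pair b y := by
  induction x using TensorProduct.induction_on with
  | zero => rw [map_zero, map_zero, zero_mul, map_zero, zero_mul]
  | add x x' hx hx' => rw [map_add (mapC W₀ (fst X Y)), add_mul, map_add, hx, hx', map_add, add_mul]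
  | tmul z w =>
    induction y using TensorProduct.induction_on with
    | zero => rw [map_zero, map_zero, mul_zero, map_zero, mul_zero]
    | add y y' hy hy' => rw [map_add (mapC W₀ (snd X Y)), mul_add, map_add, hy, hy', map_add,
        mul_add]
    | tmul z' w' =>
      rw [mapC, LinearMap.baseChange_tmul, mapC, LinearMap.baseChange_tmul,
        Algebra.TensorProduct.tmul_mul_tmul, pair_tmul, pair_tmul, pair_tmul,
        Algebra.TensorProduct.tmul_mul_tmul, AlgHom.toLinearMap_apply, AlgHom.toLinearMap_apply,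
        (C.isComparison _).mul, C.map_c, C.map_c, mul_assoc, ← mul_assoc (W.map (snd X Y) b),
        W.even_comm (W.map_mem _ hb), mul_assoc (W.map (fst X Y) (C.c X w)), ← mul_assoc,
        ← map_mul, ← map_mul, W.tr_prod]

/-- The pairing of a rational class. -/
lemma pair_c (v : W₀.H X) (y : ℂ ⊗[W₀.K] W₀.H X) : C.pair (C.c X v) y =
    (Algebra.linearMap W₀.K W.K).baseChange ℂ (bilC (W₀.tr X) (1 ⊗ₜ v) y) := by
  induction y using TensorProduct.induction_on with
  | zero => rw [map_zero, map_zero, map_zero]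
  | tmul z w =>
    rw [pair_tmul, bilC_apply, Algebra.TensorProduct.tmul_mul_tmul, LinearMap.baseChange_tmul,
      LinearMap.baseChange_tmul, one_mul, ← (C.isComparison X).mul, (C.isComparison X).tr]
    rfl
  | add x y hx hy => rw [map_add, map_add, map_add, hx, hy]

end Comparison

end Pool.Agent.J4H47.MT
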