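import Pool.Agent.R920.PL.Law
import Pool.Agent.Y133.Half.PairDefs

/-!
# Tate classes and Hodge classes: definitions

In the intended use `k` is the algebraic closure, in the field of complex numbers, of a finitely
generated field `k₀`, `𝒱` is a class of smooth projective varieties over `k` closed under products
(for example the abelian varieties), `W₀` is the cohomology of the complex manifolds `X(ℂ)` with
rational coefficients, and `W` the `ℓ`-adic cohomology, with `ℚ_ℓ` as the field of coefficients.
-/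

open CategoryTheory AlgebraicGeometry
open scoped TensorProduct

universe u v

namespace Pool.Agent.J4H47.MT

section Alg

variable {K : Type*} [Field K] {A : Type*} [Ring A] [Algebra K A]
  {K' : Type*} [Field K'] {A' : Type*} [Ring A'] [Algebra K' A'] {Γ : Type*} [Group Γ]

/-- The algebra with complex coefficients. -/
abbrev CX (K A : Type*) [Field K] [Algebra K ℝ] [Ring A] [Algebra K A] := ℂ ⊗[K] A

noncomputable instance cxMon [Algebra K ℝ] : AddCommMonoid (CX K A) := inferInstance

noncomputable instance cxMod [Algebra K ℝ] : Module ℂ (CX K A) := inferInstance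

/-- The class `a` is in the subspace `S`. -/
abbrev In (S : Submodule K A) (a : A) : Prop := a ∈ S

/-- The class `a` is a linear combination of elements of `S`. -/
abbrev InSpan (K : Type*) [Field K] {A : Type*} [Ring A] [Algebra K A] (S : Set A) (a : A) : Prop :=
  a ∈ Submodule.span K S

/-- The map of the algebras with complex coefficients given by a map of algebras. -/
noncomputable abbrev mapCX [Algebra K ℝ] {B : Type*} [Ring B] [Algebra K B] (f : A →ₐ[K] B)
    (a : CX K A) : CX K B :=
  f.toLinearMap.baseChange ℂ a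

/-- The subspaces `G r` of the algebra with complex coefficients have the formal properties of the
sums of the Hodge components `H^(p,q)`, `p - q = r`, of the cohomology of a smooth projective
variety with orientation `t`: they span the algebra, products are compatible with them, and the
orientation is zero on `G r` for `r ≠ 0`. -/
structure IsHodgeGrading [Algebra K ℝ] (t : A →ₗ[K] K) (G : ℤ → Submodule ℂ (CX K A)) : Prop where
  sup : ⨆ r, G r = ⊤
  mul : ∀ r s, ∀ a ∈ G r, ∀ b ∈ G s, a * b ∈ G (r + s)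
  tr : ∀ r, r ≠ 0 → ∀ a ∈ G r, t.baseChange ℂ a = 0

/-- The map `c` identifies the graded algebra `A'` with orientation over the larger field `K'` with
the algebra `A`, with coefficients extended from `K` to `K'`. -/
structure IsComparison [Algebra K K'] (gr : ℕ → Submodule K A) (gr' : ℕ → Submodule K' A')
    (t : A →ₗ[K] K) (t' : A' →ₗ[K'] K') (c : A → A') : Prop where
  add : ∀ a b, c (a + b) = c a + c b
  mul : ∀ a b, c (a * b) = c a * c b
  smul : ∀ (r : K) (a : A), c (r • a) = algebraMap K K' r • c a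
  gr : ∀ (i : ℕ), ∀ a ∈ gr i, c a ∈ gr' i
  tr : ∀ a, t' (c a) = algebraMap K K' (t a)
  span : Submodule.span K' (Set.range c) = ⊤

/-- The subgroup `U` of finite index acts on the graded algebra `A` by automorphisms which preserve
the degrees; `g` multiplies the elements of the top degree `2 d` by `χ g ^ (- d)`. (The maps `ρ g` for
`g` outside `U` have no meaning.) -/
structure IsGaloisAction (gr : ℕ → Submodule K A) (d : ℕ) (t : A →ₗ[K] K) (χ : Γ →* Kˣ)
    (U : Subgroup Γ) (ρ : Γ → A → A) : Prop where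
  finiteIndex : U.FiniteIndex
  one : ∀ a, ρ 1 a = a
  comp : ∀ g ∈ U, ∀ h ∈ U, ∀ a, ρ (g * h) a = ρ g (ρ h a)
  add : ∀ g ∈ U, ∀ a b, ρ g (a + b) = ρ g a + ρ g b
  mul : ∀ g ∈ U, ∀ a b, ρ g (a * b) = ρ g a * ρ g b
  smul : ∀ g ∈ U, ∀ (r : K) (a : A), ρ g (r • a) = r • ρ g a
  gr : ∀ g ∈ U, ∀ (i : ℕ), ∀ a ∈ gr i, ρ g a ∈ gr i
  tr : ∀ g ∈ U, ∀ a, ((χ g : Kˣ) : K) ^ d * t (ρ g a) = t a

/-- The map `f` is equivariant for a subgroup of finite index. -/
def Equivar {A B : Type*} (ρ : Γ → A → A) (τ : Γ → B → B) (f : A → B) : Prop :=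
  ∃ Δ : Subgroup Γ, Δ.FiniteIndex ∧ ∀ g ∈ Δ, ∀ a, f (ρ g a) = τ g (f a)

/-- `D` has the injectivity in the hard Lefschetz theorem in the even degrees and, for the elements of
the sets `P j`, the Hodge-Riemann relations in dimension `n`. -/
structure IsAmple [Algebra K ℝ] (gr : ℕ → Submodule K A) (n : ℕ) (tr : A →ₗ[K] K) (D : A)
    (P : ℕ → Set A) : Prop where
  inj : ∀ j, 2 * j ≤ n → ∀ x ∈ gr (2 * j), D ^ (n - 2 * j) * x = 0 → x = 0
  pos : ∀ j, 2 * j ≤ n → ∀ x ∈ gr (2 * j), x ∈ P j → D ^ (n - 2 * j + 1) * x = 0 → x ≠ 0 →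
    0 < (-1 : ℝ) ^ j * algebraMap K ℝ (tr (D ^ (n - 2 * j) * x * x))

/-- The Lefschetz isomorphisms map the elements of the sets `P j` onto those of `P (n - j)`. -/
def LefOnto {A : Type*} [Ring A] (n : ℕ) (D : A) (P : ℕ → Set A) : Prop :=
  ∀ j, 2 * j ≤ n → ∀ v ∈ P (n - j), ∃ x ∈ P j, D ^ (n - 2 * j) * x = v

/-- A subgroup of finite index, contained in `U`, acts on `a` through the character `χ ^ (- j)`. -/
def TateIn (U : Subgroup Γ) (χ : Γ →* Kˣ) (ρ : Γ → A → A) (j : ℕ) (a : A) : Prop :=
  ∃ Δ ≤ U, Δ.FiniteIndex ∧ ∀ g ∈ Δ, ((χ g : Kˣ) : K) ^ j • ρ g a = a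

end Alg

open Pool.Agent.H914 VarClass Obj WeilCohomology
open Pool.Agent.Y133.Half (pw)

variable {k : Type u} [Field k] {𝒱 : VarClass k} {ops : CycleOps 𝒱}

/-- The class of the cycle `z`. -/
noncomputable abbrev cls (W : WeilCohomology.{u, v} ops) {X : 𝒱.Obj} (z : X.Cycles) : W.H X :=
  W.cl X z

/-- The pull-back. -/
noncomputable abbrev pull (W : WeilCohomology.{u, v} ops) {X Y : 𝒱.Obj} (f : X ⟶ Y) (a : W.H Y) :
    W.H X :=
  W.map f a

/-- The cohomology with complex coefficients. -/
abbrev HC (W : WeilCohomology.{u, v} ops) [Algebra W.K ℝ] (X : 𝒱.Obj) : Type v := CX W.K (W.H X)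

noncomputable instance hcMon (W : WeilCohomology.{u, v} ops) [Algebra W.K ℝ] (X : 𝒱.Obj) :
    AddCommMonoid (HC W X) := cxMon

noncomputable instance hcMod (W : WeilCohomology.{u, v} ops) [Algebra W.K ℝ] (X : 𝒱.Obj) :
    Module ℂ (HC W X) := cxMod

/-- The class `c` in the cohomology with complex coefficients. -/
noncomputable abbrev toHC (W : WeilCohomology.{u, v} ops) [Algebra W.K ℝ] {X : 𝒱.Obj} (c : W.H X) :
    HC W X :=
  (1 : ℂ) ⊗ₜ[W.K] c

/-- The pull-back in the cohomology with complex coefficients. -/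
noncomputable abbrev pullHC (W : WeilCohomology.{u, v} ops) [Algebra W.K ℝ] {X Y : 𝒱.Obj}
    (f : X ⟶ Y) (a : HC W Y) : HC W X :=
  mapCX (W.map f) a

/-- The `2 j`-th cohomology classes of type zero. -/
def typeZero (W : WeilCohomology.{u, v} ops) [Algebra W.K ℝ] {X : 𝒱.Obj}
    (G : Submodule ℂ (HC W X)) (j : ℕ) : Set (W.H X) :=
  {x | In (W.gr X (2 * j)) x ∧ toHC W x ∈ G}

/-- `X` has a divisor (an ample one) whose class satisfies the hard Lefschetz theorem and the
Hodge-Riemann relations, for the classes of type zero. -/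
def Polarized (W : WeilCohomology.{u, v} ops) [Algebra W.K ℝ] (X : 𝒱.Obj)
    (G : Submodule ℂ (HC W X)) : Prop :=
  ∃ D : X.Cycles, X.IsCyc 1 D ∧ IsAmple (W.gr X) X.dim (W.tr X) (cls W D) (typeZero W G) ∧
    LefOnto X.dim (cls W D) (typeZero W G)

/-- Hodge structures on the cohomology: for each variety the sums `G X r` of the Hodge components
`H^(p,q)`, `p - q = r`, of the cohomology with complex coefficients. Pull-backs are compatible with
them and the classes of algebraic cycles are in `G X 0`; each variety has a divisor (an ample one)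
whose class satisfies the hard Lefschetz theorem and the Hodge-Riemann relations, for the classes of
type zero. -/
structure HodgeTypes (W : WeilCohomology.{u, v} ops) [Algebra W.K ℝ] where
  /-- the sum of the Hodge components `H^(p,q)`, `p - q = r` -/
  G : ∀ X : 𝒱.Obj, ℤ → Submodule ℂ (HC W X)
  isGrading : ∀ X, IsHodgeGrading (W.tr X) (G X)
  map : ∀ {X Y : 𝒱.Obj} (f : X ⟶ Y) (r : ℤ), ∀ a ∈ G Y r, pullHC W f a ∈ G X r
  cl : ∀ {X : 𝒱.Obj} {j : ℕ} {z : X.Cycles}, X.IsCyc j z → toHC W (cls W z) ∈ G X 0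
  polar : ∀ X : 𝒱.Obj, Polarized W X (G X 0)

/-- The Hodge classes in `H^(2 j)(X)`: the classes with rational coefficients of type `(j, j)`. -/
def IsHodge {W : WeilCohomology.{u, v} ops} [Algebra W.K ℝ] (Ψ : HodgeTypes W) (X : 𝒱.Obj) (j : ℕ)
    (c : W.H X) : Prop :=
  c ∈ typeZero W (Ψ.G X 0) j

/-- The comparison isomorphisms between two theories, with a larger field of coefficients for the
second one; they are compatible with pull-backs and with the classes of cycles. -/
structure Comparison (W₀ W : WeilCohomology.{u, v} ops) [Algebra W₀.K W.K] where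
  /-- the comparison map -/
  c : ∀ X, W₀.H X → W.H X
  isComparison : ∀ X, IsComparison (W₀.gr X) (W.gr X) (W₀.tr X) (W.tr X) (c X)
  map : ∀ {X Y : 𝒱.Obj} (f : X ⟶ Y) (a : W₀.H Y), c X (pull W₀ f a) = pull W f (c Y a)
  cl : ∀ {X : 𝒱.Obj} (z : X.Cycles), c X (cls W₀ z) = cls W z

/-- The Galois action: the Galois group `Γ` of `k₀` with the cyclotomic character `χ`; for each
variety `X` the subgroup `U X` of finite index which belongs to a finite extension of `k₀` over which
there is a model of `X`, and its action on the cohomology of `X`. A morphism is equivariant for a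
subgroup of finite index, and on the class of a cycle of codimension `j` a subgroup of finite index
acts through `χ ^ (- j)` (they are defined over a finite extension of `k₀`). -/
structure GaloisAction (W : WeilCohomology.{u, v} ops) where
  /-- the Galois group -/
  Γ : Type
  [group : Group Γ]
  /-- the cyclotomic character -/
  χ : Γ →* W.Kˣ
  /-- the Galois group of a field over which there is a model of `X` -/
  U : 𝒱.Obj → Subgroup Γ
  /-- the action -/
  ρ : ∀ X, Γ → W.H X → W.H X
  isAction : ∀ X, IsGaloisAction (W.gr X) X.dim (W.tr X) χ (U X) (ρ X)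
  map : ∀ {X Y : 𝒱.Obj} (f : X ⟶ Y), Equivar (ρ Y) (ρ X) (pull W f)
  cl : ∀ {X : 𝒱.Obj} {j : ℕ} {z : X.Cycles}, X.IsCyc j z → TateIn (U X) χ (ρ X) j (cls W z)

attribute [instance] GaloisAction.group

/-- The Tate classes in `H^(2 j)(X)`: an open subgroup of the Galois group acts through the
character `χ ^ (- j)`. -/
def IsTate {W : WeilCohomology.{u, v} ops} (M : GaloisAction.{u, v} W) (X : 𝒱.Obj) (j : ℕ)
    (c : W.H X) : Prop :=
  In (W.gr X (2 * j)) c ∧ TateIn (M.U X) M.χ (M.ρ X) j c

/-- The linear combinations of Hodge classes in `H^(2 j)(X)`, with coefficients in the larger field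
of coefficients. -/
def HodgeSpan {W₀ W : WeilCohomology.{u, v} ops} [Algebra W₀.K ℝ] [Algebra W₀.K W.K]
    (Ψ : HodgeTypes W₀) (C : Comparison W₀ W) (X : 𝒱.Obj) (j : ℕ) (c : W.H X) : Prop :=
  InSpan W.K (C.c X '' {x | IsHodge Ψ X j x}) c

/-- The Mumford-Tate conjecture for `X`, in terms of classes: all Tate classes on all powers of `X`
are linear combinations of Hodge classes. -/
def MumfordTateFor {W₀ W : WeilCohomology.{u, v} ops} [Algebra W₀.K ℝ] [Algebra W₀.K W.K]
    (Ψ : HodgeTypes W₀) (C : Comparison W₀ W) (M : GaloisAction.{u, v} W) (X : 𝒱.Obj) : Prop :=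
  ∀ n j c, IsTate M (pw X n) j c → HodgeSpan Ψ C (pw X n) j c

/-- The Hodge conjecture for all powers of `X`. -/
def HodgeFor {W₀ : WeilCohomology.{u, v} ops} [Algebra W₀.K ℝ] (Ψ : HodgeTypes W₀) (X : 𝒱.Obj) :
    Prop :=
  ∀ n j x, IsHodge Ψ (pw X n) j x → In (spanCycles W₀ (pw X n) j) x

end Pool.Agent.J4H47.MT
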