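import Pool.Agent.J4H47.MT.Types

/-!
# Tate classes
-/

set_option autoImplicit false
set_option linter.unusedSectionVars false

open CategoryTheory AlgebraicGeometry
open scoped TensorProduct

universe u v

namespace Pool.Agent.J4H47.MT

open Module
open Pool.Agent.H914 VarClass Obj WeilCohomology
open Pool.Agent.Y133.Half (ClassPred)

variable {k : Type u} [Field k] {𝒱 : VarClass k} {ops : CycleOps 𝒱}
  {W : WeilCohomology.{u, v} ops} {X Y Z : 𝒱.Obj}

namespace GaloisAction

variable (M : GaloisAction.{u, v} W)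

lemma surj {g : M.Γ} (hg : g ∈ M.U X) (b : W.H X) : ∃ b', M.ρ X g b' = b :=
  ⟨M.ρ X g⁻¹ b, by
    rw [← (M.isAction X).comp g hg _ ((M.U X).inv_mem hg), mul_inv_cancel, (M.isAction X).one]⟩

/-- The Tate classes, as a class of cohomology classes. -/
noncomputable def pred : ClassPred W where
  P := IsTate M
  gr h := h.1
  zero {X j} := ⟨Submodule.zero_mem _, M.U X, le_rfl, (M.isAction X).finiteIndex, fun g hg => by
    have h := (M.isAction X).smul g hg 0 0
    rw [zero_smul, zero_smul] at h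
    rw [h, smul_zero]⟩
  add {X j a b} ha hb := by
    obtain ⟨h0, Δ, h1, _, h2⟩ := ha
    obtain ⟨h0', Δ', h1', _, h2'⟩ := hb
    exact ⟨Submodule.add_mem _ h0 h0', Δ ⊓ Δ', inf_le_left.trans h1, inferInstance, fun g hg => by
      rw [(M.isAction X).add g (h1 hg.1), smul_add, h2 g hg.1, h2' g hg.2]⟩
  smul {X j} r {a} ha := by
    obtain ⟨h0, Δ, h1, h3, h2⟩ := ha
    exact ⟨Submodule.smul_mem _ _ h0, Δ, h1, h3, fun g hg => by
      rw [(M.isAction X).smul g (h1 hg), smul_comm, h2 g hg]⟩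
  cl hz := ⟨W.cl_mem hz, M.cl hz⟩
  mul {X i j a b} ha hb := by
    obtain ⟨h0, Δ, h1, _, h2⟩ := ha
    obtain ⟨h0', Δ', h1', _, h2'⟩ := hb
    refine ⟨?_, Δ ⊓ Δ', inf_le_left.trans h1, inferInstance, fun g hg => ?_⟩
    · have := W.mul_mem h0 h0'
      rwa [← mul_add] at this
    · rw [(M.isAction X).mul g (h1 hg.1), pow_add, mul_smul, ← mul_smul_comm, h2' g hg.2,
        ← smul_mul_assoc, h2 g hg.1]
  map {X Y} f {j a} ha := by
    obtain ⟨h0, Δ, h1, _, h2⟩ := ha
    obtain ⟨Δ', _, h3⟩ := M.map f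
    have := (M.isAction X).finiteIndex
    refine ⟨W.map_mem f h0, Δ ⊓ Δ' ⊓ M.U X, inf_le_right, inferInstance, fun g hg => ?_⟩
    rw [← h3 g hg.1.2, ← map_smul, h2 g hg.1.1]
  push {X Y} f {j l} hl a ha := by
    obtain ⟨h0, Δ, h1, _, h2⟩ := ha
    obtain ⟨Δ', _, h3⟩ := M.map f
    have := (M.isAction Y).finiteIndex
    refine ⟨?_, Δ ⊓ Δ' ⊓ M.U Y, inf_le_right, inferInstance, fun g hg => ?_⟩
    · have h2 := W.push_mem f h0
      have e1 : ((2 * j : ℕ) : ℤ) + 2 * ((Y.dim : ℤ) - X.dim) = ((2 * l : ℕ) : ℤ) := by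
        push_cast
        zify at hl
        linarith
      rw [e1, grZ_natCast] at h2
      exact h2
    · have hX : g ∈ M.U X := h1 hg.1.1
      have hY : g ∈ M.U Y := hg.2
      have key : ∀ b : W.H Y, W.map f (M.ρ Y g b) = M.ρ X g (W.map f b) := fun b => h3 g hg.1.2 b
      set u : W.K := ((M.χ g : W.Kˣ) : W.K) with hu
      have hu0 : u ≠ 0 := (M.χ g).ne_zero
      apply W.tr_ext
      intro b
      obtain ⟨b', rfl⟩ := M.surj hY b
      rw [smul_mul_assoc, map_smul, smul_eq_mul, ← (M.isAction Y).mul g hY]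
      have e1 := (M.isAction Y).tr g hY (W.push f a * b')
      have e2 := (M.isAction X).tr g hX (a * W.map f b')
      rw [W.tr_push] at e1
      rw [(M.isAction X).mul g hX] at e2
      have e3 : W.tr Y (W.push f a * M.ρ Y g b') =
          u ^ j * W.tr X (M.ρ X g a * M.ρ X g (W.map f b')) := by
        rw [W.tr_push, key]
        conv_lhs => rw [← h2 g hg.1.1]
        rw [smul_mul_assoc, map_smul, smul_eq_mul]
      rw [e3]
      apply mul_left_cancel₀ (pow_ne_zero (X.dim + Y.dim) hu0)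
      calc u ^ (X.dim + Y.dim) * (u ^ l * W.tr Y (M.ρ Y g (W.push f a * b')))
          = u ^ (l + X.dim) * (u ^ Y.dim * W.tr Y (M.ρ Y g (W.push f a * b'))) := by ring
        _ = u ^ (j + Y.dim) * (u ^ X.dim * W.tr X (M.ρ X g a * M.ρ X g (W.map f b'))) := by
            rw [e1, e2, hl]
        _ = _ := by ring

end GaloisAction

end Pool.Agent.J4H47.MT
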