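import Pool.Agent.J4H47.MT.Main
import Pool.Agent.J4H47.MT.Gal
import Pool.Agent.J4H47.AH.Mot

/-!
# The Hodge classes are all or a negligible part of the Tate classes
-/

set_option autoImplicit false
set_option linter.unusedSectionVars false

open CategoryTheory AlgebraicGeometry Filter Topology
open scoped TensorProduct ENNReal

universe u v

namespace Pool.Agent.J4H47.MT

open Module
open Pool.Agent.H914 VarClass Obj WeilCohomology
open Pool.Agent.Y133.Half (ClassPred dimBy cycRank pw HasIndex GeneratedOver)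

variable {k : Type u} [Field k] {𝒱 : VarClass k} {ops : CycleOps 𝒱}
  {W₀ W : WeilCohomology.{u, v} ops} [Algebra W₀.K ℝ] [Algebra W₀.K W.K] {X Y Z : 𝒱.Obj}

variable {Ψ : HodgeTypes W₀} {C : Comparison W₀ W} {M : GaloisAction.{u, v} W}

lemma pos_of_top {t h : ℕ → ℕ} (H : HasIndex t h ⊤) {ε : ℝ} (hε : 0 < ε)
    (hf : ∃ᶠ n in atTop, ε * t n ≤ h n) : False := by
  have h1 : ENNReal.ofReal (1 / ε) < ⊤ := ENNReal.ofReal_lt_top
  have h2 : ∀ᶠ n in atTop, ENNReal.ofReal (1 / ε) < (t n : ℝ≥0∞) / h n := by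
    have := H.eventually (lt_mem_nhds (show ENNReal.ofReal (1 / ε) < ((⊤ : ℕ∞) : ℝ≥0∞) by
      rw [ENat.toENNReal_top]; exact h1))
    exact this
  obtain ⟨n, hn, hn'⟩ := (hf.and_eventually h2).exists
  refine absurd hn' (not_lt.2 ?_)
  apply ENNReal.div_le_of_le_mul
  have h3 : (t n : ℝ) ≤ 1 / ε * h n := by
    rw [div_mul_eq_mul_div, one_mul, le_div_iff₀ hε]
    linarith
  have h4 := ENNReal.ofReal_le_ofReal h3
  rwa [ENNReal.ofReal_mul (by positivity), ENNReal.ofReal_natCast, ENNReal.ofReal_natCast] at h4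

lemma nontrivial_of (C : Comparison W₀ W) (X : 𝒱.Obj) [Nontrivial (W.H X)] :
    Nontrivial (W₀.H X) := by
  by_contra h
  rw [not_nontrivial_iff_subsingleton] at h
  have h1 : Submodule.span W.K (Set.range (C.c X)) = ⊥ := by
    rw [Submodule.span_eq_bot]
    rintro _ ⟨a, rfl⟩
    rw [Subsingleton.elim a 0, C.c_zero]
  rw [(C.isComparison X).span] at h1
  exact top_ne_bot h1

theorem law (Ψ : HodgeTypes W₀) (C : Comparison W₀ W) (M : GaloisAction.{u, v} W)
    (hHT : ∀ (X : 𝒱.Obj) (j : ℕ) (x : W₀.H X), IsHodge Ψ X j x → IsTate M X j (C.c X x))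
    (X : 𝒱.Obj) [Nontrivial (W.H X)] :
    (MumfordTateFor Ψ C M X ∨ HasIndex (fun n => dimBy W (IsTate M) (pw X n))
      (fun n => dimBy W₀ (IsHodge Ψ) (pw X n)) ⊤) ∧
    (∀ ε : ℝ, 0 < ε → (∃ᶠ n in atTop, ε * dimBy W (IsTate M) (pw X n) ≤
      dimBy W₀ (IsHodge Ψ) (pw X n)) → MumfordTateFor Ψ C M X) ∧
    (∀ N, GeneratedOver W (HodgeSpan Ψ C) (IsTate M) X N → MumfordTateFor Ψ C M X) ∧
    ∃ P : ℕ∞, 1 ≤ P ∧ (P = 1 ↔ HodgeFor Ψ X) ∧
      HasIndex (fun n => dimBy W₀ (IsHodge Ψ) (pw X n)) (fun n => cycRank ops (pw X n)) P ∧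
      (MumfordTateFor Ψ C M X →
        HasIndex (fun n => dimBy W (IsTate M) (pw X n)) (fun n => cycRank ops (pw X n)) P) ∧
      (¬ MumfordTateFor Ψ C M X →
        HasIndex (fun n => dimBy W (IsTate M) (pw X n)) (fun n => cycRank ops (pw X n)) ⊤) := by
  have hN := nontrivial_of C X
  have hQR : ∀ {Z : 𝒱.Obj} {j : ℕ} {c : W.H Z}, (spanPred Ψ C).P Z j c → M.pred.P Z j c := by
    intro Z j c hc
    have hc' : c ∈ Submodule.span W.K (C.c Z '' {x | IsHodge Ψ Z j x}) := hc
    clear hc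
    induction hc' using Submodule.span_induction with
    | mem x hx => obtain ⟨a, ha, rfl⟩ := hx; exact hHT Z j a ha
    | zero => exact M.pred.zero
    | add a b _ _ ha hb => exact M.pred.add ha hb
    | smul r a _ ha => exact M.pred.smul r ha
  obtain ⟨N, P, h1, h2, h3, h4, h5, h6, -, -, -, h10, -⟩ :=
    (spanPred Ψ C).tower M.pred hQR X fun n => span_nondeg Ψ C (pw X n)
  obtain ⟨N', P', -, k2, -, k4, -, -, k7, -, -, -, -⟩ :=
    Ψ.pred.tower Ψ.pred (fun h => h) X fun n => by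
      obtain ⟨D, hD⟩ := Ψ.hr (pw X n)
      exact hD.nondeg
  have hdim : (fun n => dimBy W (spanPred Ψ C).P (pw X n)) =
      fun n => dimBy W₀ (IsHodge Ψ) (pw X n) := funext fun n => dim_span Ψ C (pw X n)
  rw [hdim] at h3 h4
  have hgen : ∀ N, GeneratedOver W (HodgeSpan Ψ C) (IsTate M) X N → MumfordTateFor Ψ C M X :=
    fun N h n j c hc => hodge_of_generated (R := M.pred) h hc
  have hPP : P' = P := Pool.Agent.J4H47.AH.eq_of_hasIndex k4 h4
  have hdich : MumfordTateFor Ψ C M X ∨ N = ⊤ := by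
    by_cases hN : N = ⊤
    · exact Or.inr hN
    · exact Or.inl (hgen N (h10 hN))
  have hone : MumfordTateFor Ψ C M X → N = 1 := fun h => h6.2 h
  refine ⟨?_, ?_, hgen, P, h2, ?_, h4, ?_, ?_⟩
  · rcases hdich with h | h
    · exact Or.inl h
    · subst h; exact Or.inr h3
  · intro ε hε hf
    rcases hdich with h | h
    · exact h
    · subst h
      exact (pos_of_top h3 hε hf).elim
  · rw [← hPP]; exact k7
  · intro h
    have := hone h
    subst this
    rwa [one_mul] at h5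
  · intro h
    have hNt : N = ⊤ := hdich.resolve_left h
    subst hNt
    rwa [ENat.top_mul (by rintro rfl; simp at h2)] at h5

end Pool.Agent.J4H47.MT
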