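import Mathlib

/-!
# Linear algebra for the types
-/

set_option autoImplicit false

open scoped TensorProduct
open Module

namespace Pool.Agent.J4H47.MT

section orth

variable {R V P : Type*} [Field R] [AddCommGroup V] [Module R V] [AddCommGroup P] [Module R P]

/-- A vector which is orthogonal to all the pieces which are not dual to the piece `M r` is in `M r`. -/
lemma orth_mem (β : V →ₗ[R] V →ₗ[R] P) (hβ : ∀ a, (∀ b, β a b = 0) → a = 0) {ι κ : Type*}
    (M : ι → Submodule R V) (N : κ → Submodule R V) (hM : ⨆ i, M i = ⊤) (hN : ⨆ i, N i = ⊤)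
    (rel : ι → κ → Prop) (hu : ∀ i i' k, rel i k → rel i' k → i = i')
    (ho : ∀ i k, ¬ rel i k → ∀ a ∈ M i, ∀ b ∈ N k, β a b = 0) (r : ι) {a : V}
    (ha : ∀ k, ¬ rel r k → ∀ b ∈ N k, β a b = 0) : a ∈ M r := by
  classical
  have h1 : a ∈ ⨆ i, M i := by rw [hM]; trivial
  obtain ⟨f, hf, hs⟩ := (Submodule.mem_iSup_iff_exists_finsupp _ _).1 h1
  have key : ∀ i, i ≠ r → f i = 0 := by
    intro i hi
    apply hβ
    intro b
    have h2 : b ∈ ⨆ k, N k := by rw [hN]; trivial
    obtain ⟨g, hg, hgs⟩ := (Submodule.mem_iSup_iff_exists_finsupp _ _).1 h2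
    rw [← hgs, Finsupp.sum, map_sum]
    refine Finset.sum_eq_zero fun k _ => ?_
    by_cases hik : rel i k
    · have h3 : ¬ rel r k := fun h => hi (hu i r k hik h)
      have h4 := ha k h3 (g k) (hg k)
      rw [← hs, Finsupp.sum, map_sum, LinearMap.sum_apply] at h4
      have h5 : ∑ x ∈ f.support, β (f x) (g k) = β (f i) (g k) := by
        by_cases hif : i ∈ f.support
        · refine Finset.sum_eq_single_of_mem i hif fun j _ hj => ?_
          exact ho j k (fun h => hj (hu j i k h hik)) _ (hf j) _ (hg k)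
        · rw [Finsupp.notMem_support_iff.1 hif, map_zero, LinearMap.zero_apply]
          refine Finset.sum_eq_zero fun j hj => ?_
          refine ho j k (fun h => ?_) _ (hf j) _ (hg k)
          have := hu j i k h hik
          subst this
          exact hif hj
      rw [h5] at h4
      exact h4
    · exact ho i k hik _ (hf i) _ (hg k)
  have h6 : a = f r := by
    rw [← hs, Finsupp.sum]
    by_cases hr : r ∈ f.support
    · exact Finset.sum_eq_single_of_mem r hr fun j _ hj => key j hj
    · rw [Finsupp.notMem_support_iff.1 hr]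
      refine Finset.sum_eq_zero fun j hj => ?_
      by_cases hjr : j = r
      · subst hjr; exact absurd hj hr
      · exact key j hjr
  rw [h6]
  exact hf r

/-- Only finitely many pieces are different from zero. -/
lemma piece_bot (β : V →ₗ[R] V →ₗ[R] P) (hβ : ∀ a, (∀ b, β a b = 0) → a = 0) [Module.Finite R V]
    (G : ℤ → Submodule R V) (hG : ⨆ i, G i = ⊤)
    (ho : ∀ i k, i + k ≠ 0 → ∀ a ∈ G i, ∀ b ∈ G k, β a b = 0) :
    ∃ B : ℕ, ∀ r : ℤ, (B : ℤ) < |r| → G r = ⊥ := by
  classical
  have hc : IsCompactElement (⊤ : Submodule R V) :=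
    (Submodule.fg_iff_compact _).1 Module.Finite.fg_top
  obtain ⟨S, hS⟩ := CompleteLattice.IsCompactElement.exists_finset_of_le_iSup _ hc G hG.ge
  refine ⟨∑ s ∈ S, s.natAbs, fun r hr => ?_⟩
  rw [Submodule.eq_bot_iff]
  intro a ha
  apply hβ
  intro b
  have hb : b ∈ ⨆ i ∈ S, G i := hS trivial
  induction hb using Submodule.iSup_induction' with
  | mem i x hx =>
    by_cases hi : i ∈ S
    · rw [iSup_pos hi] at hx
      refine ho r i (fun h => ?_) a ha x hx
      have h1 : i.natAbs ≤ ∑ s ∈ S, s.natAbs := Finset.single_le_sum (f := fun s : ℤ => s.natAbs)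
        (fun _ _ => Nat.zero_le _) hi
      have h2 : r = -i := by omega
      rw [h2, abs_neg, Int.abs_eq_natAbs] at hr
      have h3 : (∑ s ∈ S, s.natAbs) < i.natAbs := by exact_mod_cast hr
      omega
    · rw [iSup_neg hi, Submodule.mem_bot] at hx
      rw [hx, map_zero]
  | zero => rw [map_zero]
  | add x y _ _ hx hy => rw [map_add, hx, hy, add_zero]

end orth

section repr

variable {K V : Type*} [Field K] [AddCommGroup V] [Module K V] [FiniteDimensional K V]

/-- Linear forms are represented by vectors. -/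
noncomputable def formEquiv (β : V →ₗ[K] V →ₗ[K] K) (hβ : ∀ a, (∀ b, β a b = 0) → a = 0) :
    V ≃ₗ[K] Dual K V :=
  LinearEquiv.ofInjectiveOfFinrankEq β
    (by
      rw [← LinearMap.ker_eq_bot, LinearMap.ker_eq_bot']
      intro a ha
      exact hβ a fun b => by rw [ha, LinearMap.zero_apply])
    (Subspace.dual_finrank_eq).symm

lemma exists_repr (β : V →ₗ[K] V →ₗ[K] K) (hβ : ∀ a, (∀ b, β a b = 0) → a = 0) (f : V →ₗ[K] K) :
    ∃ v, ∀ w, β v w = f w := by
  obtain ⟨v, hv⟩ := (formEquiv β hβ).surjective f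
  refine ⟨v, fun w => ?_⟩
  have h := congrArg (fun g : Dual K V => g w) hv
  exact h

variable (L : Type*) [Field L] [Algebra K L]

/-- The form with larger coefficients is nondegenerate. -/
lemma nondeg_bc (β : V →ₗ[K] V →ₗ[K] K) (hβ : ∀ a, (∀ b, β a b = 0) → a = 0) (a : L ⊗[K] V)
    (h : ∀ b : V, (β.flip b).baseChange L a = 0) : a = 0 := by
  classical
  let b := Module.finBasis K V
  have hw : ∀ i, ∃ v, ∀ w, β v w = b.coord i w := fun i => exists_repr β hβ (b.coord i)
  let e := formEquiv β hβ
  let w := b.dualBasis.map e.symm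
  have hwb : ∀ i j, β (w i) (b j) = if j = i then 1 else 0 := by
    intro i j
    have h1 : e (w i) = b.dualBasis i := by simp [w]
    have h2 : β (w i) (b j) = (e (w i)) (b j) := rfl
    rw [h2, h1, Basis.dualBasis_apply_self]
  have h3 := (w.baseChange L).sum_repr a
  have h4 : ∀ j, (w.baseChange L).repr a j = 0 := by
    intro j
    have h5 := h (b j)
    rw [← h3, map_sum] at h5
    have h6 : ∀ i, (β.flip (b j)).baseChange L ((w.baseChange L).repr a i • (w.baseChange L) i) =
        if j = i then (w.baseChange L).repr a i ⊗ₜ[K] (1 : K) else 0 := by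
      intro i
      rw [map_smul, Basis.baseChange_apply, LinearMap.baseChange_tmul, LinearMap.flip_apply, hwb,
        TensorProduct.smul_tmul', smul_eq_mul, mul_one]
      split_ifs
      · rfl
      · rw [TensorProduct.tmul_zero]
    rw [Finset.sum_congr rfl fun i _ => h6 i, Finset.sum_ite_eq] at h5
    simp only [Finset.mem_univ, if_true] at h5
    have h7 := congrArg (TensorProduct.rid K L) h5
    rw [TensorProduct.rid_tmul, one_smul, map_zero] at h7
    exact h7
  rw [← h3]
  exact Finset.sum_eq_zero fun i _ => by rw [h4, zero_smul]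

end repr

end Pool.Agent.J4H47.MT
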