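import Pool.Agent.J4H47.MT.Span
import Pool.Agent.J4H82.MT.Red
import Pool.Agent.Y133.Half.PairPred

/-!
# Finitely generated systems of classes over the Hodge classes
-/

set_option autoImplicit false
set_option linter.unusedSectionVars false

open CategoryTheory AlgebraicGeometry
open scoped TensorProduct

universe u v

namespace Pool.Agent.J4H47.MT

open Module
open Pool.Agent.H914 VarClass Obj WeilCohomology
open Pool.Agent.Y133.Half (ClassPred dimBy dimOf pw pwAdd genOver imagesBy GeneratedOver)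

variable {k : Type u} [Field k] {𝒱 : VarClass k} {ops : CycleOps 𝒱}
  {W₀ W : WeilCohomology.{u, v} ops} [Algebra W₀.K ℝ] [Algebra W₀.K W.K] {X Y Z : 𝒱.Obj}
  (Ψ : HodgeTypes W₀) (C : Comparison W₀ W)

lemma dim_pwH (X : 𝒱.Obj) (n : ℕ) : (pw X n).dim = (n + 1) * X.dim := by
  induction n with
  | zero => rw [zero_add, one_mul]; rfl
  | succ n ih =>
    have : (pw X (n + 1)).dim = ((pw X n).prod X).dim := rfl
    rw [this, dim_prod, ih]
    ring

variable {Ψ C}

lemma pair_hodge {j : ℕ} {c : W.H X} (hc : HodgeSpan Ψ C X j c) {s : ℤ} (hs : s ≠ 0)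
    {y : ℂ ⊗[W₀.K] W₀.H X} (hy : y ∈ Ψ.G X s) : C.pair c y = 0 := by
  unfold HodgeSpan at hc
  induction hc using Submodule.span_induction with
  | mem x hx =>
    obtain ⟨a, ha, rfl⟩ := hx
    rw [C.pair_c, Ψ.ortho (by omega) ha.2 hy, map_zero]
  | zero => exact C.pair_zero y
  | add a b _ _ ha hb => rw [C.pair_add, ha, hb, add_zero]
  | smul r a _ ha => rw [C.pair_smul, ha, mul_zero]

/-- The images under Hodge correspondences of a class on `X` have no component of a type which does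
not occur on `X`. -/
lemma pair_image {j j' : ℕ} {φ : W.H (X.prod Y)} (hφ : HodgeSpan Ψ C (X.prod Y) j φ) {c : W.H X}
    (hc : c ∈ W.gr X (2 * j')) {s : ℤ} (hs : Ψ.G X s = ⊥) {y : ℂ ⊗[W₀.K] W₀.H Y}
    (hy : y ∈ Ψ.G Y s) : C.pair (W.push (snd X Y) (φ * W.map (fst X Y) c)) y = 0 := by
  rw [C.pair_push]
  have hy' : mapC W₀ (snd X Y) y ∈ Ψ.G (X.prod Y) s := Ψ.map _ _ _ hy
  unfold HodgeSpan at hφ
  induction hφ using Submodule.span_induction with
  | mem x hx =>
    obtain ⟨a, ha, rfl⟩ := hx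
    rw [C.pair_mul ha.1, C.pair_map _ hc]
    have h1 : pushC W₀ (fst X Y) ((1 ⊗ₜ a) * mapC W₀ (snd X Y) y) ∈ Ψ.G X s := by
      apply Ψ.push
      have h2 := (Ψ.isGrading (X.prod Y)).mul 0 s _ ha.2 _ hy'
      rwa [zero_add] at h2
    rw [hs, Submodule.mem_bot] at h1
    rw [h1, map_zero]
  | zero => rw [zero_mul, C.pair_zero]
  | add a b _ _ ha hb => rw [add_mul, C.pair_add, ha, hb, add_zero]
  | smul r a _ ha => rw [smul_mul_assoc, C.pair_smul, ha, mul_zero]

/-- Squares of classes. -/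
lemma exists_power {R : ClassPred W} {m j : ℕ} {c : W.H (pw X m)} (hc : R.P (pw X m) j c) {s : ℤ}
    {y : ℂ ⊗[W₀.K] W₀.H (pw X m)} (hy : y ∈ Ψ.G (pw X m) s) (t : ℕ) :
    ∃ (m' j' : ℕ) (c' : W.H (pw X m')) (y' : ℂ ⊗[W₀.K] W₀.H (pw X m')),
      R.P (pw X m') j' c' ∧ y' ∈ Ψ.G (pw X m') (2 ^ t * s) ∧
        C.pair c' y' = C.pair c y ^ 2 ^ t := by
  induction t with
  | zero => exact ⟨m, j, c, y, hc, by simpa using hy, by simp⟩
  | succ t ih =>
    obtain ⟨m, j, c, y, hc', hy', he⟩ := ih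
    let θ := pwAdd X m m
    let V := pw X m
    have h1 : R.P (V.prod V) (j + j) (W.map (fst V V) c * W.map (snd V V) c) :=
      R.mul (R.map _ hc') (R.map _ hc')
    have hd : j + j + (V.prod V).dim = j + j + (pw X (m + m + 1)).dim := by
      rw [dim_prod, dim_pwH, dim_pwH]
      ring
    refine ⟨m + m + 1, j + j, W.push θ.hom (W.map (fst V V) c * W.map (snd V V) c),
      mapC W₀ θ.inv (mapC W₀ (fst V V) y * mapC W₀ (snd V V) y), R.push θ.hom hd h1,
      Ψ.map _ _ _ ?_, ?_⟩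
    · have h2 := (Ψ.isGrading (V.prod V)).mul _ _ _ (Ψ.map (fst V V) _ _ hy') _
        (Ψ.map (snd V V) _ _ hy')
      have h3 : (2 : ℤ) ^ (t + 1) * s = 2 ^ t * s + 2 ^ t * s := by ring
      rw [h3]
      exact h2
    · rw [C.pair_push]
      have h4 : ∀ z : ℂ ⊗[W₀.K] W₀.H (V.prod V), mapC W₀ θ.hom (mapC W₀ θ.inv z) = z := by
        intro z
        induction z using TensorProduct.induction_on with
        | zero => rw [map_zero, map_zero]
        | tmul a b =>
          simp only [mapC, LinearMap.baseChange_tmul, AlgHom.toLinearMap_apply]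
          rw [← W₀.map_comp, θ.hom_inv_id, W₀.map_id]
        | add a b ha hb => rw [map_add (mapC W₀ θ.inv), map_add (mapC W₀ θ.hom), ha, hb]
      rw [h4, C.pair_prod c (R.gr hc'), he, ← pow_two, ← pow_mul, ← pow_succ]

/-- **A system of classes which is finitely generated over the Hodge classes consists of linear
combinations of Hodge classes.** -/
theorem hodge_of_generated {R : ClassPred W} {N : ℕ∞}
    (hgen : GeneratedOver W (HodgeSpan Ψ C) R.P X N) {m j : ℕ} {c : W.H (pw X m)}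
    (hc : R.P (pw X m) j c) : HodgeSpan Ψ C (pw X m) j c := by
  classical
  have hred : IsReduced (ℂ ⊗[W₀.K] W.K) := Pool.Agent.J4H82.MT.t_RED _ _ _
  obtain ⟨r, cs, -, hcs, hall⟩ := hgen
  have hB : ∃ B : ℕ, ∀ i, ∀ s : ℤ, (B : ℤ) < |s| → Ψ.G (pw X (cs i).1) s = ⊥ := by
    choose B hB using fun i => Ψ.bounded (pw X (cs i).1)
    refine ⟨∑ i, B i, fun i s hs => hB i s (lt_of_le_of_lt ?_ hs)⟩
    exact_mod_cast Finset.single_le_sum (f := B) (fun _ _ => Nat.zero_le _) (Finset.mem_univ i)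
  obtain ⟨B, hB⟩ := hB
  have key : ∀ n (z : W.H (pw X n)), z ∈ genOver W (HodgeSpan Ψ C) X cs n → ∀ s : ℤ,
      (B : ℤ) < |s| → ∀ y ∈ Ψ.G (pw X n) s, C.pair z y = 0 := by
    intro n z hz s hs y hy
    have hs0 : s ≠ 0 := by
      rintro rfl
      rw [abs_zero] at hs
      omega
    unfold genOver at hz
    induction hz using Submodule.span_induction with
    | mem x hx =>
      rcases hx with ⟨j, hx⟩ | hx
      · exact pair_hodge hx hs0 hy
      · obtain ⟨i, hx⟩ := Set.mem_iUnion.1 hx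
        obtain ⟨j, φ, hφ, rfl⟩ := hx
        obtain ⟨j', hj'⟩ := hcs i
        exact pair_image hφ (R.gr hj') (hB i s hs) hy
    | zero => exact C.pair_zero y
    | add a b _ _ ha hb => rw [C.pair_add, ha, hb, add_zero]
    | smul r a _ ha => rw [C.pair_smul, ha, mul_zero]
  refine span_of_pair Ψ C (R.gr hc) fun s hs y hy => ?_
  obtain ⟨m', j', c', y', hc', hy', he⟩ := exists_power (C := C) hc hy (B + 1)
  have h1 : (B : ℤ) < |2 ^ (B + 1) * s| := by
    rw [abs_mul, abs_of_pos (by positivity : (0 : ℤ) < 2 ^ (B + 1))]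
    have h2 : (B : ℤ) < 2 ^ (B + 1) := by
      have h3 : B < 2 ^ B := Nat.lt_two_pow_self
      have h4 : (2 : ℤ) ^ (B + 1) = 2 * 2 ^ B := by ring
      have h5 : (B : ℤ) < 2 ^ B := by exact_mod_cast h3
      linarith
    have h6 : 1 ≤ |s| := Int.one_le_abs hs
    nlinarith
  have h7 := key m' c' (hall m' j' c' hc') _ h1 y' hy'
  rw [he] at h7
  exact pow_eq_zero_iff (pow_ne_zero _ two_ne_zero) |>.1 h7

end Pool.Agent.J4H47.MT
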