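import Pool.Agent.J4H47.MT.Cmp

/-!
# The linear combinations of Hodge classes
-/

set_option autoImplicit false
set_option linter.unusedSectionVars false

open CategoryTheory AlgebraicGeometry
open scoped TensorProduct

universe u v

namespace Pool.Agent.J4H47.MT

open Module
open Pool.Agent.H914 VarClass Obj WeilCohomology
open Pool.Agent.Y133.Half (ClassPred dimBy dimOf)

variable {k : Type u} [Field k] {𝒱 : VarClass k} {ops : CycleOps 𝒱}
  {W₀ W : WeilCohomology.{u, v} ops} [Algebra W₀.K ℝ] [Algebra W₀.K W.K] {X Y Z : 𝒱.Obj}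

/-- The linear combinations of the Hodge classes, as a class of cohomology classes. -/
noncomputable def spanPred (Ψ : HodgeTypes W₀) (C : Comparison W₀ W) : ClassPred W where
  P := HodgeSpan Ψ C
  gr {X j c} h := by
    induction h using Submodule.span_induction with
    | mem x hx => obtain ⟨a, ha, rfl⟩ := hx; exact (C.isComparison X).gr _ _ ha.1
    | zero => exact Submodule.zero_mem _
    | add x y _ _ hx hy => exact Submodule.add_mem _ hx hy
    | smul r x _ hx => exact Submodule.smul_mem _ _ hx
  zero := Submodule.zero_mem _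
  add ha hb := Submodule.add_mem _ ha hb
  smul r _ ha := Submodule.smul_mem _ _ ha
  cl {X j z} hz := Submodule.subset_span ⟨_, Ψ.pred.cl hz, C.cl z⟩
  mul {X i j a b} ha hb := by
    unfold HodgeSpan at *
    induction ha using Submodule.span_induction with
    | mem x hx =>
      obtain ⟨a, ha, rfl⟩ := hx
      induction hb using Submodule.span_induction with
      | mem y hy =>
        obtain ⟨b, hb, rfl⟩ := hy
        rw [← (C.isComparison X).mul]
        exact Submodule.subset_span ⟨_, Ψ.pred.mul ha hb, rfl⟩
      | zero => rw [mul_zero]; exact Submodule.zero_mem _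
      | add x y _ _ hx hy => rw [mul_add]; exact Submodule.add_mem _ hx hy
      | smul r x _ hx => rw [mul_smul_comm]; exact Submodule.smul_mem _ _ hx
    | zero => rw [zero_mul]; exact Submodule.zero_mem _
    | add x y _ _ hx hy => rw [add_mul]; exact Submodule.add_mem _ hx hy
    | smul r x _ hx => rw [smul_mul_assoc]; exact Submodule.smul_mem _ _ hx
  map {X Y} f {j a} ha := by
    unfold HodgeSpan at *
    induction ha using Submodule.span_induction with
    | mem x hx =>
      obtain ⟨a, ha, rfl⟩ := hx
      rw [← C.map_c]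
      exact Submodule.subset_span ⟨_, Ψ.pred.map f ha, rfl⟩
    | zero => rw [map_zero]; exact Submodule.zero_mem _
    | add x y _ _ hx hy => rw [map_add]; exact Submodule.add_mem _ hx hy
    | smul r x _ hx => rw [map_smul]; exact Submodule.smul_mem _ _ hx
  push {X Y} f {j l} hl a ha := by
    unfold HodgeSpan at *
    induction ha using Submodule.span_induction with
    | mem x hx =>
      obtain ⟨a, ha, rfl⟩ := hx
      rw [← C.c_push]
      exact Submodule.subset_span ⟨_, Ψ.pred.push f hl ha, rfl⟩
    | zero => rw [map_zero]; exact Submodule.zero_mem _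
    | add x y _ _ hx hy => rw [map_add]; exact Submodule.add_mem _ hx hy
    | smul r x _ hx => rw [map_smul]; exact Submodule.smul_mem _ _ hx

/-- The rational classes of degree `n` are the ones which are orthogonal to the degrees different
from `2 d - n`. -/
lemma mem_gr_of_orth {n : ℕ} {a : W₀.H X}
    (ha : ∀ i, n + i ≠ 2 * X.dim → ∀ b ∈ W₀.gr X i, W₀.tr X (a * b) = 0) : a ∈ W₀.gr X n :=
  orth_mem (bil (W₀.tr X)) (fun a h => W₀.nondeg a h) (W₀.gr X) (W₀.gr X)
    (W₀.isInternal X).submodule_iSup_eq_top (W₀.isInternal X).submodule_iSup_eq_top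
    (fun i k => i + k = 2 * X.dim) (fun i i' k h h' => by omega)
    (fun _ _ h _ ha _ hb => W₀.tr_eq_zero (W₀.mul_mem ha hb) h) n ha

variable (Ψ : HodgeTypes W₀) (C : Comparison W₀ W)

/-- A class whose pairing with all complex classes of nonzero type is zero is a linear combination of
Hodge classes. -/
theorem span_of_pair {j : ℕ} {c : W.H X} (hc : c ∈ W.gr X (2 * j))
    (h : ∀ s : ℤ, s ≠ 0 → ∀ y ∈ Ψ.G X s, C.pair c y = 0) : HodgeSpan Ψ C X j c := by
  classical
  have hrep : ∀ ε : W.K →ₗ[W₀.K] W₀.K, ∃ v, ∀ w, bil (W₀.tr X) v w = (ε ∘ₗ C.tau c) w :=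
    fun ε => exists_repr (bil (W₀.tr X)) (fun a h => W₀.nondeg a h) _
  choose v hv using hrep
  have hH : ∀ ε, IsHodge Ψ X j (v ε) := by
    intro ε
    refine ⟨mem_gr_of_orth fun i hi b hb => ?_, Ψ.mem_of_orth fun s hs b hb => ?_⟩
    · have h1 := hv ε b
      rw [bil_apply] at h1
      rw [h1, LinearMap.comp_apply, Comparison.tau_apply]
      have h2 := W.mul_mem hc ((C.isComparison X).gr i b hb)
      have h3 : 2 * j + i ≠ 2 * X.dim := hi
      rw [W.tr_eq_zero h2 h3, map_zero]
    · have key : ∀ b, bilC (W₀.tr X) (1 ⊗ₜ v ε) b = ε.baseChange ℂ (C.pair c b) := by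
        intro b
        induction b using TensorProduct.induction_on with
        | zero => rw [map_zero, map_zero, map_zero]
        | tmul z w =>
          rw [bilC_apply, Algebra.TensorProduct.tmul_mul_tmul, LinearMap.baseChange_tmul,
            Comparison.pair_tmul, LinearMap.baseChange_tmul, one_mul]
          have h1 := hv ε w
          rw [bil_apply] at h1
          rw [h1]
          rfl
        | add x y hx hy => rw [map_add, map_add, map_add, hx, hy]
      rw [key, h s (by omega) b hb, map_zero]
  let e := Basis.ofVectorSpace W₀.K W.K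
  let b := Module.finBasis W₀.K (W₀.H X)
  let S := Finset.univ.biUnion fun i => (e.repr (C.tau c (b i))).support
  have hsum : c = ∑ s ∈ S, e s • C.c X (v (e.coord s)) := by
    apply C.tr_ext'
    intro w
    rw [Finset.sum_mul, map_sum]
    have h1 : ∀ s, W.tr X (e s • C.c X (v (e.coord s)) * C.c X w) =
        (e.coord s (C.tau c w)) • e s := by
      intro s
      rw [smul_mul_assoc, map_smul, ← (C.isComparison X).mul, (C.isComparison X).tr, smul_eq_mul,
        mul_comm, ← Algebra.smul_def]
      have h2 := hv (e.coord s) w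
      rw [bil_apply] at h2
      rw [h2]
      rfl
    rw [Finset.sum_congr rfl fun s _ => h1 s]
    have h3 : C.tau c = ∑ s ∈ S, ((e.coord s) ∘ₗ C.tau c).smulRight (e s) := by
      refine b.ext fun i => ?_
      rw [LinearMap.sum_apply]
      conv_lhs => rw [← e.linearCombination_repr (C.tau c (b i))]
      rw [Finsupp.linearCombination_apply]
      refine Finsupp.sum_of_support_subset _ ?_ _ (fun s _ => zero_smul _ _)
      exact Finset.subset_biUnion_of_mem (fun i => (e.repr (C.tau c (b i))).support)
        (Finset.mem_univ i)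
    have h4 := LinearMap.congr_fun h3 w
    rw [LinearMap.sum_apply] at h4
    exact h4
  rw [hsum]
  exact Submodule.sum_mem _ fun s _ => Submodule.smul_mem _ _
    (Submodule.subset_span ⟨_, hH _, rfl⟩)

/-- The space spanned by the classes in question is the span of the Hodge classes. -/
lemma span_all : Submodule.span W.K {c : W.H X | ∃ j, HodgeSpan Ψ C X j c} =
    Submodule.span W.K (C.c X '' {x | ∃ j, IsHodge Ψ X j x}) := by
  apply le_antisymm
  · refine Submodule.span_le.2 ?_
    rintro c ⟨j, hc⟩
    refine Submodule.span_mono ?_ hc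
    rintro _ ⟨x, hx, rfl⟩
    exact ⟨x, ⟨j, hx⟩, rfl⟩
  · refine Submodule.span_mono ?_
    rintro _ ⟨x, ⟨j, hx⟩, rfl⟩
    exact ⟨j, Submodule.subset_span ⟨x, hx, rfl⟩⟩

lemma c_span {S : Set (W₀.H X)} {y : W₀.H X} (hy : y ∈ Submodule.span W₀.K S) :
    C.c X y ∈ Submodule.span W.K (C.c X '' S) := by
  induction hy using Submodule.span_induction with
  | mem x hx => exact Submodule.subset_span ⟨x, hx, rfl⟩
  | zero => rw [C.c_zero]; exact Submodule.zero_mem _
  | add x y _ _ hx hy =>
    rw [(C.isComparison X).add]; exact Submodule.add_mem _ hx hy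
  | smul r x _ hx =>
    rw [(C.isComparison X).smul]; exact Submodule.smul_mem _ _ hx

/-- The linear combinations of Hodge classes are nondegenerate. -/
theorem span_nondeg (X : 𝒱.Obj) : (spanPred Ψ C).sys.Nondeg X := by
  have h0 : Ψ.pred.sys.Nondeg X := by
    obtain ⟨D, hD⟩ := Ψ.hr X
    exact hD.nondeg
  intro x hx h
  have hx' : x ∈ Submodule.span W.K (C.c X '' {x | ∃ j, IsHodge Ψ X j x}) := by
    rw [← span_all]; exact hx
  have key : ∀ ε : W.K →ₗ[W₀.K] W₀.K, ∃ u ∈ Ψ.pred.sys.C X, ∀ w,
      W₀.tr X (u * w) = ε (W.tr X (x * C.c X w)) := by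
    clear h hx
    induction hx' using Submodule.span_induction with
    | mem x hx =>
      obtain ⟨a, ⟨j, ha⟩, rfl⟩ := hx
      intro ε
      refine ⟨ε 1 • a, Submodule.smul_mem _ _ (ClassPred.sp_of (Q := Ψ.pred) ha), fun w => ?_⟩
      rw [smul_mul_assoc, map_smul, ← (C.isComparison X).mul, (C.isComparison X).tr, smul_eq_mul,
        Algebra.algebraMap_eq_smul_one, map_smul, smul_eq_mul, mul_comm]
    | zero =>
      intro ε
      exact ⟨0, Submodule.zero_mem _, fun w => by rw [zero_mul, map_zero, zero_mul, map_zero, map_zero]⟩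
    | add x y _ _ hx hy =>
      intro ε
      obtain ⟨u, hu, h1⟩ := hx ε
      obtain ⟨u', hu', h2⟩ := hy ε
      exact ⟨u + u', Submodule.add_mem _ hu hu', fun w => by
        rw [add_mul, map_add, h1, h2, add_mul, map_add, map_add]⟩
    | smul r x _ hx =>
      intro ε
      obtain ⟨u, hu, h1⟩ := hx (ε ∘ₗ LinearMap.mulLeft W₀.K r)
      refine ⟨u, hu, fun w => ?_⟩
      rw [h1, smul_mul_assoc, map_smul, LinearMap.comp_apply, LinearMap.mulLeft_apply, smul_eq_mul]
  have h1 : ∀ w, W.tr X (x * C.c X w) = 0 := by
    intro w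
    let e := Basis.ofVectorSpace W₀.K W.K
    apply e.repr.injective
    rw [map_zero]
    ext s
    obtain ⟨u, hu, hu2⟩ := key (e.coord s)
    have h2 : u = 0 := by
      apply h0 u hu
      intro y hy
      rw [hu2]
      have h3 : C.c X y ∈ (spanPred Ψ C).sys.C X := by
        have h4 : C.c X y ∈ Submodule.span W.K (C.c X '' {x | ∃ j, IsHodge Ψ X j x}) := by
          have h5 : y ∈ Submodule.span W₀.K {x | ∃ j, IsHodge Ψ X j x} := hy
          exact c_span C h5
        rw [← span_all] at h4
        exact h4
      rw [h _ h3, map_zero]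
    have h6 := hu2 w
    rw [h2, zero_mul, map_zero] at h6
    exact h6.symm
  apply C.tr_ext'
  intro w
  rw [h1, zero_mul, map_zero]

/-- The dimension does not change. -/
theorem dim_span (X : 𝒱.Obj) : dimBy W (HodgeSpan Ψ C) X = dimBy W₀ (IsHodge Ψ) X := by
  classical
  unfold dimBy dimOf Set.finrank
  rw [span_all]
  let V := Submodule.span W₀.K {c : W₀.H X | ∃ j, IsHodge Ψ X j c}
  let b := Module.finBasis W₀.K V
  have h1 : Submodule.span W.K (C.c X '' {x | ∃ j, IsHodge Ψ X j x}) =
      Submodule.span W.K (Set.range fun i => C.c X (b i : W₀.H X)) := by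
    apply le_antisymm
    · refine Submodule.span_le.2 ?_
      rintro _ ⟨x, hx, rfl⟩
      have hxV : x ∈ V := Submodule.subset_span hx
      have h2 : x = ∑ i, b.repr ⟨x, hxV⟩ i • (b i : W₀.H X) := by
        have h3 := congrArg (fun y : V => (y : W₀.H X)) (b.sum_repr ⟨x, hxV⟩)
        simp only [Submodule.coe_sum, Submodule.coe_smul] at h3
        exact h3.symm
      rw [h2]
      have h4 : ∀ (s : Finset (Fin (finrank W₀.K V))) (f : Fin (finrank W₀.K V) → W₀.K),
          C.c X (∑ i ∈ s, f i • (b i : W₀.H X)) ∈
            Submodule.span W.K (Set.range fun i => C.c X (b i : W₀.H X)) := by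
        intro s f
        induction s using Finset.induction_on with
        | empty => rw [Finset.sum_empty, C.c_zero]; exact Submodule.zero_mem _
        | insert i s hi ih =>
          rw [Finset.sum_insert hi, (C.isComparison X).add, (C.isComparison X).smul]
          exact Submodule.add_mem _ (Submodule.smul_mem _ _ (Submodule.subset_span ⟨i, rfl⟩)) ih
      exact h4 _ _
    · refine Submodule.span_le.2 ?_
      rintro _ ⟨i, rfl⟩
      have h5 : (b i : W₀.H X) ∈ Submodule.span W₀.K {c : W₀.H X | ∃ j, IsHodge Ψ X j c} := (b i).2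
      exact c_span C h5
  rw [h1]
  have hli : LinearIndependent W.K fun i => C.c X (b i : W₀.H X) := by
    rw [Fintype.linearIndependent_iff]
    intro a ha j
    obtain ⟨f, hf⟩ := LinearMap.exists_extend (b.coord j)
    obtain ⟨u, hu⟩ := exists_repr (bil (W₀.tr X)) (fun a h => W₀.nondeg a h) f
    have h6 := congrArg (fun x => W.tr X (C.c X u * x)) ha
    simp only [mul_zero, map_zero, Finset.mul_sum, map_sum, mul_smul_comm, map_smul,
      smul_eq_mul] at h6
    have h7 : ∀ i, W.tr X (C.c X u * C.c X (b i : W₀.H X)) = if i = j then 1 else 0 := by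
      intro i
      rw [← (C.isComparison X).mul, (C.isComparison X).tr]
      have h8 := hu (b i : W₀.H X)
      rw [bil_apply] at h8
      rw [h8]
      have h9 : f (b i : W₀.H X) = b.coord j (b i) := by rw [← hf]; rfl
      rw [h9, Basis.coord_apply, Basis.repr_self, Finsupp.single_apply]
      split_ifs
      · rw [map_one]
      · rw [map_zero]
    simp only [h7, mul_ite, mul_one, mul_zero, Finset.sum_ite_eq', Finset.mem_univ, if_true] at h6
    exact h6
  rw [finrank_span_eq_card hli, Fintype.card_fin]

end Pool.Agent.J4H47.MT
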