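import Pool.Agent.J4H47.MT.Defs
import Pool.Agent.J4H47.MT.Lin
import Pool.Agent.J4H47.VH.Pred
import Pool.Agent.Y133.Half.HRPred

/-!
# The types: duality, push-forwards, Hodge classes
-/

set_option autoImplicit false
set_option linter.unusedSectionVars false

open CategoryTheory AlgebraicGeometry
open scoped TensorProduct

universe u v

namespace Pool.Agent.J4H47.MT

open Module

section Alg

variable {K : Type*} [Field K] [Algebra K ℂ] {A : Type*} [Ring A] [Algebra K A]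

/-- The trace form. -/
noncomputable def bil (t : A →ₗ[K] K) : A →ₗ[K] A →ₗ[K] K := (LinearMap.mul K A).compr₂ t

@[simp] lemma bil_apply (t : A →ₗ[K] K) (a b : A) : bil t a b = t (a * b) := rfl

/-- The trace form with complex coefficients. -/
noncomputable def bilC (t : A →ₗ[K] K) : (ℂ ⊗[K] A) →ₗ[ℂ] (ℂ ⊗[K] A) →ₗ[ℂ] (ℂ ⊗[K] K) :=
  (LinearMap.mul ℂ (ℂ ⊗[K] A)).compr₂ (t.baseChange ℂ)

lemma bilC_apply (t : A →ₗ[K] K) (a b : ℂ ⊗[K] A) : bilC t a b = t.baseChange ℂ (a * b) := rfl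

lemma bilC_nondeg [FiniteDimensional K A] (t : A →ₗ[K] K) (ht : ∀ a, (∀ b, t (a * b) = 0) → a = 0)
    (a : ℂ ⊗[K] A) (h : ∀ b, bilC t a b = 0) : a = 0 := by
  refine nondeg_bc ℂ (bil t) ht a fun b => ?_
  have h1 := h (1 ⊗ₜ b)
  rw [bilC_apply] at h1
  have key : ∀ x : ℂ ⊗[K] A, ((bil t).flip b).baseChange ℂ x = t.baseChange ℂ (x * 1 ⊗ₜ b) := by
    intro x
    induction x using TensorProduct.induction_on with
    | zero => rw [map_zero, zero_mul, map_zero]
    | tmul z y => rw [LinearMap.baseChange_tmul, Algebra.TensorProduct.tmul_mul_tmul, mul_one,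
        LinearMap.baseChange_tmul]; rfl
    | add x y hx hy => rw [map_add, hx, hy, add_mul, map_add]
  rw [key, h1]

end Alg

open Pool.Agent.H914 VarClass Obj WeilCohomology
open Pool.Agent.Y133.Half (ClassPred)

variable {k : Type u} [Field k] {𝒱 : VarClass k} {ops : CycleOps 𝒱}
  {W₀ : WeilCohomology.{u, v} ops} [Algebra W₀.K ℝ] {X Y Z : 𝒱.Obj}

/-- The pull-back with complex coefficients. -/
noncomputable abbrev mapC (W : WeilCohomology.{u, v} ops) [Algebra W.K ℝ] (f : X ⟶ Y) :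
    (ℂ ⊗[W.K] W.H Y) →ₗ[ℂ] (ℂ ⊗[W.K] W.H X) :=
  (W.map f).toLinearMap.baseChange ℂ

/-- The push-forward with complex coefficients. -/
noncomputable abbrev pushC (W : WeilCohomology.{u, v} ops) [Algebra W.K ℝ] (f : X ⟶ Y) :
    (ℂ ⊗[W.K] W.H X) →ₗ[ℂ] (ℂ ⊗[W.K] W.H Y) :=
  (W.push f).baseChange ℂ

lemma mapC_mul (f : X ⟶ Y) (a b : ℂ ⊗[W₀.K] W₀.H Y) :
    mapC W₀ f (a * b) = mapC W₀ f a * mapC W₀ f b := by
  induction a using TensorProduct.induction_on with
  | zero => rw [zero_mul, map_zero, zero_mul]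
  | add x y hx hy => rw [add_mul, map_add, hx, hy, map_add, add_mul]
  | tmul z x =>
    induction b using TensorProduct.induction_on with
    | zero => rw [mul_zero, map_zero, mul_zero]
    | add x y hx hy => rw [mul_add, map_add, hx, hy, map_add, mul_add]
    | tmul w y =>
      simp only [mapC, Algebra.TensorProduct.tmul_mul_tmul, LinearMap.baseChange_tmul,
        AlgHom.toLinearMap_apply, map_mul]

lemma tr_pushC (f : X ⟶ Y) (a : ℂ ⊗[W₀.K] W₀.H X) (b : ℂ ⊗[W₀.K] W₀.H Y) :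
    (W₀.tr Y).baseChange ℂ (pushC W₀ f a * b) = (W₀.tr X).baseChange ℂ (a * mapC W₀ f b) := by
  induction a using TensorProduct.induction_on with
  | zero => rw [zero_mul, map_zero, map_zero, zero_mul, map_zero]
  | add x y hx hy => rw [map_add (pushC W₀ f), add_mul, map_add, hx, hy, add_mul, map_add]
  | tmul z x =>
    induction b using TensorProduct.induction_on with
    | zero => rw [mul_zero, map_zero, map_zero, mul_zero, map_zero]
    | add x y hx hy => rw [mul_add, map_add, hx, hy, map_add (mapC W₀ f), mul_add, map_add]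
    | tmul w y =>
      simp only [mapC, pushC, Algebra.TensorProduct.tmul_mul_tmul, LinearMap.baseChange_tmul,
        AlgHom.toLinearMap_apply, W₀.tr_push]

namespace HodgeTypes

variable (Ψ : HodgeTypes W₀)

lemma nondegC (a : ℂ ⊗[W₀.K] W₀.H X) (h : ∀ b, bilC (W₀.tr X) a b = 0) : a = 0 :=
  bilC_nondeg (W₀.tr X) (fun a h => W₀.nondeg a h) a h

lemma ortho {r s : ℤ} (h : r + s ≠ 0) {a b : ℂ ⊗[W₀.K] W₀.H X} (ha : a ∈ Ψ.G X r)
    (hb : b ∈ Ψ.G X s) : bilC (W₀.tr X) a b = 0 :=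
  (Ψ.isGrading X).tr _ h _ ((Ψ.isGrading X).mul _ _ _ ha _ hb)

/-- A class is of type `r` if it is orthogonal to the classes of type `s ≠ - r`. -/
lemma mem_of_orth {r : ℤ} {a : ℂ ⊗[W₀.K] W₀.H X}
    (ha : ∀ s : ℤ, r + s ≠ 0 → ∀ b ∈ Ψ.G X s, bilC (W₀.tr X) a b = 0) : a ∈ Ψ.G X r :=
  orth_mem (bilC (W₀.tr X)) nondegC (Ψ.G X) (Ψ.G X) (Ψ.isGrading X).sup (Ψ.isGrading X).sup
    (fun i k => i + k = 0) (fun i i' k h h' => by omega)
    (fun _ _ h _ ha _ hb => Ψ.ortho h ha hb) r ha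

/-- The types are bounded. -/
lemma bounded (X : 𝒱.Obj) : ∃ B : ℕ, ∀ r : ℤ, (B : ℤ) < |r| → Ψ.G X r = ⊥ :=
  piece_bot (bilC (W₀.tr X)) nondegC (Ψ.G X) (Ψ.isGrading X).sup
    fun _ _ h _ ha _ hb => Ψ.ortho h ha hb

/-- Push-forwards are compatible with the types. -/
lemma push (f : X ⟶ Y) {r : ℤ} {a : ℂ ⊗[W₀.K] W₀.H X} (ha : a ∈ Ψ.G X r) :
    pushC W₀ f a ∈ Ψ.G Y r := by
  refine Ψ.mem_of_orth fun s hs b hb => ?_
  rw [bilC_apply, tr_pushC, ← bilC_apply]
  exact Ψ.ortho hs ha (Ψ.map f s b hb)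

/-- The Hodge classes, as a class of cohomology classes. -/
noncomputable def pred : ClassPred W₀ where
  P := IsHodge Ψ
  gr h := h.1
  zero {X j} := ⟨Submodule.zero_mem _, by
    unfold toHC; rw [TensorProduct.tmul_zero]; exact Submodule.zero_mem _⟩
  add {X j a b} ha hb := ⟨Submodule.add_mem _ ha.1 hb.1, by
    unfold toHC; rw [TensorProduct.tmul_add]; exact Submodule.add_mem _ ha.2 hb.2⟩
  smul {X j} r {a} ha := ⟨Submodule.smul_mem _ _ ha.1, by
    unfold toHC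
    have h : (1 : ℂ) ⊗ₜ[W₀.K] (r • a) = (algebraMap W₀.K ℂ r) • ((1 : ℂ) ⊗ₜ[W₀.K] a) := by
      rw [TensorProduct.smul_tmul', ← TensorProduct.smul_tmul, Algebra.smul_def, smul_eq_mul]
    rw [h]
    exact Submodule.smul_mem _ _ ha.2⟩
  cl hz := ⟨W₀.cl_mem hz, Ψ.cl hz⟩
  mul {X i j a b} ha hb := by
    refine ⟨?_, ?_⟩
    · have := W₀.mul_mem ha.1 hb.1
      rwa [← mul_add] at this
    · have h := (Ψ.isGrading X).mul 0 0 _ ha.2 _ hb.2
      unfold toHC at h ⊢
      rwa [Algebra.TensorProduct.tmul_mul_tmul, mul_one, add_zero] at h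
  map {X Y} f {j a} ha := ⟨W₀.map_mem f ha.1, by
    have h := Ψ.map f 0 _ ha.2
    unfold toHC pullHC mapCX at h
    unfold toHC
    rwa [LinearMap.baseChange_tmul] at h⟩
  push {X Y} f {j l} hl a ha := by
    refine ⟨?_, ?_⟩
    · have h2 := W₀.push_mem f ha.1
      have e1 : ((2 * j : ℕ) : ℤ) + 2 * ((Y.dim : ℤ) - X.dim) = ((2 * l : ℕ) : ℤ) := by
        push_cast
        zify at hl
        linarith
      rw [e1, grZ_natCast] at h2
      exact h2
    · have h := Ψ.push f ha.2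
      unfold toHC at h ⊢
      rwa [pushC, LinearMap.baseChange_tmul] at h

/-- The Hodge classes satisfy the Hodge-Riemann relations. -/
lemma hr (X : 𝒱.Obj) : ∃ D, Ψ.pred.HR X D := by
  obtain ⟨D, hD, hA, hL⟩ := Ψ.polar X
  exact ⟨D, hD, fun j hj v hv => hL j hj v hv, fun j hj x hx => hA.pos j hj x hx.1 hx⟩

end HodgeTypes

end Pool.Agent.J4H47.MT
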